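import Mathlib
import Pool.Agent.H69.ED.FinB

/-!
# The growth exponent of the edit distance diameter exists for every primitive substitution

For every primitive substitution `σ` on a finite alphabet with at least two letters the ratio
`log Δ_n(σ) / log n` converges.  The limit is `0` if `σ` is periodic and lies in `[1/2, 1]` otherwise.

Idea.  Replace the letters by tiles whose lengths are the entries of the Perron eigenvector (algebraic
integers of the field generated by the Perron number `λ`).  For a shift `r` in this field count the
tiles of level `k` which do not coincide after the shift by `λ ^ k * r`; `r` is good with exponent `η` if this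
number is `O(λ ^ (η k))` per tile.  The good shifts form a group `R η`.  If `R η` is not zero then an alignment with
shifts `λ ^ m * r` gives the upper exponent `1 / (2 - η)`.  Good shifts have bounded non-contracting conjugates (a
mean value argument).  If `R η` is zero then a Morse-Hedlund argument modulo goodness shows that a good shift of
a long window which is the `λ`-multiple of an unregistered shift does not exist, and a recursion over the levels shows that a cheap alignment is
registered at all levels, which gives the lower exponent `1 / (2 - η)`.  Finally the discrepancy between the
number of letters and the length has an exponent `β` of its own.  The limit is the maximum of `β` and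
`1 / (2 - μ)`, where `μ` is the infimum of the `η` with `R η` not zero.

The notions used by the statement (`subst`, `Primitive`, `Words`, `lcs`, `editDist`, `diam`, `Periodic`) are defined in
`Pool/Agent/H95/Edit/Defs.lean` and `Pool/Agent/H95/Edit/Pub.lean`.
-/

namespace Pool.Agent.Results.MP_c2c775_co.AllPrimitive

open Filter Topology H95.Edit

theorem result {A : Type} [Fintype A] (hA : 2 ≤ Fintype.card A) (σ : A → List A)
    (hp : Primitive σ) :
    ∃ t : ℝ, Tendsto (fun n : ℕ => Real.log (diam σ n) / Real.log n) atTop (𝓝 t) ∧
      ((∃ p, 1 ≤ p ∧ Periodic σ p) → t = 0) ∧
      ((¬ ∃ p, 1 ≤ p ∧ Periodic σ p) → 1 / 2 ≤ t ∧ t ≤ 1) :=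
  H69.ED.main hA σ hp

end Pool.Agent.Results.MP_c2c775_co.AllPrimitive
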