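import Mathlib
import Pool.Agent.H95.Edit.M16_Formula

/-!
# The growth exponent of the edit distance diameter: all substitutions of constant length

For a primitive substitution `σ` of constant length `L` on a finite alphabet with at least two
letters which is not periodic the limit of `log Δ_n(σ) / log n` is `log L / log (L² / ρ)`, where `ρ`
is the least of the numbers `ρ(p)`, `p ≥ 1`, and already the least of the `ρ(p)` with
`1 ≤ p ≤ |A|`.  Here `ρ(p)` is the spectral radius of an explicit matrix with natural entries, indexed by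
the pairs of letters: the matrix counts how the pairs of letters which are reached from the pairs at
distance `p` reproduce without coinciding.  It is also the growth rate of the largest number of mismatches
of `σ^k(a)` and `σ^k(b)`, for `a`, `b` at distance `p`.  For two letters `ρ(p) = H` is the number of
places at which the two images differ (Thue-Morse: `L = H = 2`, limit `1`; period doubling: `L = 2`,
`H = 1`, limit `1 / 2`).

The notions used by the statement are defined in `Pool/Agent/H95/Edit/Defs.lean` (`lcs`),
`Pool/Agent/H95/Edit/Pub.lean` (`subst`, `Primitive`, `Words`, `editDist`, `diam`, `Periodic`) and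
`Pool/Agent/H95/Edit/PubLag.lean` (`mismatch`, `LagPair`, `lagMismatch`, `Below`, `lagMatrix`).
-/

namespace Pool.Agent.Results.MP_c2c775_co.ConstantLengthFormula

open Filter Topology H95.Edit

open Classical in
theorem result {A : Type} [Fintype A] (hA : 2 ≤ Fintype.card A) (σ : A → List A)
    (hp : Primitive σ) (L : ℕ) (hL : ∀ a, (σ a).length = L)
    (hper : ¬ ∃ p, 1 ≤ p ∧ Periodic σ p) :
    ∃ ρ : ℕ → ℝ,
      (∀ p, 1 ≤ p → 1 ≤ ρ p ∧ ρ p ≤ L ∧
        spectralRadius ℂ (lagMatrix σ p) = ENNReal.ofReal (ρ p) ∧
        Tendsto (fun k : ℕ => (lagMismatch σ p k : ℝ) ^ (1 / (k : ℝ))) atTop (𝓝 (ρ p)) ∧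
        ∀ a b : A, a ≠ b → (∀ c, c = a ∨ c = b) →
          ρ p = ((Finset.range L).filter (fun i => (σ a)[i]? ≠ (σ b)[i]?)).card) ∧
      ∃ p₀, 1 ≤ p₀ ∧ p₀ ≤ Fintype.card A ∧ (∀ p, 1 ≤ p → ρ p₀ ≤ ρ p) ∧
        Tendsto (fun n : ℕ => Real.log (diam σ n) / Real.log n) atTop
          (𝓝 (Real.log L / Real.log ((L : ℝ) ^ 2 / ρ p₀))) :=
  formula hA σ hp L hL hper

end Pool.Agent.Results.MP_c2c775_co.ConstantLengthFormula
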