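import Mathlib
import Pool.Agent.H95.Edit.M12_TM

/-!
# Edit distance of the images of different letters: substitutions without coincidences

Let `σ` be a primitive substitution of constant length `L` which is not periodic and has no
coincidences: for different letters `a`, `b` the words `σ(a)` and `σ(b)` differ at every place.
Then for different letters `a`, `b` the edit distance of the prefixes of length `n` of `σ^N(a)` and
`σ^N(b)` (`2 ≤ n ≤ L^N`) is at least `n 2 ^ (- C √(log₂ n))`.

For the substitution of Thue and Morse these prefixes are the prefix of length `n` of the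
Thue-Morse sequence and its complement.
-/

namespace Pool.Agent.Results.MP_c2c775_co.NoCoincidence

open H95.Edit

theorem result {A : Type} [Finite A] [Nontrivial A] (σ : A → List A) (hp : Primitive σ) (L : ℕ)
    (hL : ∀ a, (σ a).length = L) (hap : ¬ ∃ p, 1 ≤ p ∧ Periodic σ p)
    (hb : ∀ a b, a ≠ b → ∀ i : ℕ, i < L → (σ a)[i]? ≠ (σ b)[i]?) :
    ∃ C : ℝ, 0 < C ∧ ∀ n : ℕ, 2 ≤ n → ∀ N : ℕ, n ≤ L ^ N → ∀ a b : A, a ≠ b →
      (n : ℝ) * 2 ^ (-(C * √(Real.logb 2 n))) ≤
        editDist (((subst σ)^[N] [a]).take n) (((subst σ)^[N] [b]).take n) :=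
  bij_main σ hp L hL hap hb

end Pool.Agent.Results.MP_c2c775_co.NoCoincidence
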